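import Pool.Agent.L7h5.DX.Win

/-!
The asymptotic form of the counting lemma.
-/

namespace Pool.Agent.L7h5.DX

open Finset Filter Real

theorem log25 : (25 : ℝ) ≤ exp (13 / 4) := by
  have h1 : (25 : ℝ) ^ 4 ≤ (exp (13 / 4)) ^ 4 := by
    rw [← exp_nat_mul]
    have e : ((4 : ℕ) : ℝ) * (13 / 4) = (13 : ℕ) * 1 := by norm_num
    rw [e, exp_nat_mul]
    have h2 : (2.7182818283 : ℝ) ^ 13 ≤ (exp 1) ^ 13 :=
      pow_le_pow_left₀ (by norm_num) exp_one_gt_d9.le 13
    refine le_trans ?_ h2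
    norm_num
  exact le_of_pow_le_pow_left₀ (by norm_num) (exp_pos _).le h1

theorem ev1 (Y : ℝ) : ∀ᶠ x : ℝ in atTop,
    10 * Y * (x ^ 2 + 1) ^ 4 * exp (13 / 28 * x) + 1 ≤ exp (x / 2) := by
  have h1 := (isLittleO_pow_exp_pos_mul_atTop (k := 8) (b := 1 / 28) (by norm_num)).bound
    (c := 1 / (160 * |Y| + 1)) (by positivity)
  filter_upwards [h1, eventually_ge_atTop 1] with x hx hx1
  rw [norm_of_nonneg (by positivity), norm_of_nonneg (exp_pos _).le] at hx
  have h2 : (160 * |Y| + 1) * x ^ 8 ≤ exp (1 / 28 * x) := by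
    have h3 : (0 : ℝ) < 160 * |Y| + 1 := by positivity
    rw [div_mul_eq_mul_div, one_mul, le_div_iff₀ h3] at hx
    linarith
  have h3 : (x ^ 2 + 1) ^ 4 ≤ 16 * x ^ 8 := by
    have : x ^ 2 + 1 ≤ 2 * x ^ 2 := by nlinarith
    calc (x ^ 2 + 1) ^ 4 ≤ (2 * x ^ 2) ^ 4 := pow_le_pow_left₀ (by positivity) this 4
      _ = _ := by ring
  have h4 : exp (x / 2) = exp (13 / 28 * x) * exp (1 / 28 * x) := by
    rw [← exp_add]; congr 1; ring
  have h5 : 1 ≤ exp (13 / 28 * x) := one_le_exp (by positivity)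
  have h6 : 1 ≤ x ^ 8 := one_le_pow₀ hx1
  rw [h4]
  calc 10 * Y * (x ^ 2 + 1) ^ 4 * exp (13 / 28 * x) + 1
      ≤ 10 * |Y| * (x ^ 2 + 1) ^ 4 * exp (13 / 28 * x) + 1 * exp (13 / 28 * x) := by
        have : Y ≤ |Y| := le_abs_self Y
        gcongr
        linarith
    _ ≤ 10 * |Y| * (16 * x ^ 8) * exp (13 / 28 * x) + x ^ 8 * exp (13 / 28 * x) := by
        gcongr
    _ = ((160 * |Y| + 1) * x ^ 8) * exp (13 / 28 * x) := by ring
    _ ≤ exp (1 / 28 * x) * exp (13 / 28 * x) := mul_le_mul_of_nonneg_right h2 (exp_pos _).le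
    _ = _ := by ring

theorem asy (b H : ℕ) (hb : 2 ≤ b) (α : ℝ) : ∃ n₀ : ℕ, ∀ n ≥ n₀, ∀ (g : ℕ → ℤ) (D : ℤ),
    Dat b g H α D n → (log n) ^ 2 / (100 * log (log n)) + 1 ≤ ((sup g n).card : ℝ) := by
  obtain ⟨Y, hY⟩ := exists_con H α
  have hY := hY b hb
  have hlog : Tendsto (fun n : ℕ => log (n : ℝ)) atTop atTop :=
    tendsto_log_atTop.comp tendsto_natCast_atTop_atTop
  have hev := (hlog.eventually ((ev1 Y).and (eventually_ge_atTop 6000))).and
    (eventually_ge_atTop 1)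
  rw [eventually_atTop] at hev
  obtain ⟨n₀, hn₀⟩ := hev
  refine ⟨n₀, fun n hn g D hD => ?_⟩
  obtain ⟨⟨h1, h2⟩, hn1⟩ := hn₀ n hn
  set x : ℝ := log n with hx
  have hx0 : 0 < x := by linarith
  have hnpos : (0 : ℝ) < n := by exact_mod_cast hn1
  have hexp : exp x = n := exp_log hnpos
  set l : ℝ := log x with hl
  have hl1 : 1 ≤ l := by
    rw [hl, le_log_iff_exp_le hx0]
    have := exp_one_lt_d9
    linarith
  have hlx : l ≤ x := (log_le_sub_one_of_pos hx0).trans (by linarith)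
  have hl0 : 0 < l := by linarith
  set K := ⌊x ^ 2⌋₊ with hK
  rcases lt_or_ge K (sup g n).card with hKlt | hKle
  · -- many places anyway
    have h3 : x ^ 2 < (sup g n).card := (Nat.floor_lt (by positivity)).1 hKlt
    have h4 : x ^ 2 / (100 * l) ≤ x ^ 2 / 100 := by
      apply div_le_div_of_nonneg_left (by positivity) (by norm_num)
      linarith
    nlinarith
  have hKx : (K : ℝ) ≤ x ^ 2 := Nat.floor_le (by positivity)
  set X := Nat.sqrt n with hX
  have hXle : (X : ℝ) ≤ exp (x / 2) := by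
    have h3 : ((X * X : ℕ) : ℝ) ≤ n := by exact_mod_cast Nat.sqrt_le n
    push_cast at h3
    have h4 : exp (x / 2) * exp (x / 2) = n := by
      rw [← exp_add, ← hexp]; congr 1; ring
    by_contra hcon
    push Not at hcon
    have := mul_lt_mul'' hcon hcon (exp_pos _).le (exp_pos _).le
    linarith
  have hXge : exp (x / 2) ≤ X + 1 := by
    have h3 : (n : ℝ) < ((X + 1) * (X + 1) : ℕ) := by
      exact_mod_cast Nat.lt_succ_sqrt n
    push_cast at h3
    have h4 : exp (x / 2) * exp (x / 2) = n := by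
      rw [← exp_add, ← hexp]; congr 1; ring
    by_contra hcon
    push Not at hcon
    have := mul_lt_mul'' hcon hcon (by positivity) (by positivity)
    linarith
  set q := ⌊x / 7⌋₊ with hq
  set S := ⌊x / (7 * l)⌋₊ with hS
  have hqle : (q : ℝ) ≤ x / 7 := Nat.floor_le (by positivity)
  have hqge : x / 7 - 1 ≤ q := by
    have := Nat.lt_floor_add_one (x / 7)
    linarith
  have hSle : (S : ℝ) ≤ x / (7 * l) := Nat.floor_le (by positivity)
  have hSge : x / (7 * l) ≤ S + 1 := (Nat.lt_floor_add_one _).le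
  -- first condition
  have c1 : 5 * (Y * (K + 1) ^ 3 * 25 ^ q) ≤ X / (2 * (K + 1)) := by
    rw [Nat.le_div_iff_mul_le (by omega)]
    have h3 : ((25 : ℝ) ^ q) ≤ exp (13 / 28 * x) := by
      calc (25 : ℝ) ^ q ≤ (exp (13 / 4)) ^ q := pow_le_pow_left₀ (by norm_num) log25 q
        _ = exp (q * (13 / 4)) := by rw [← exp_nat_mul]
        _ ≤ _ := by
            apply exp_le_exp.2
            linarith
    have h4 : (5 * (Y * (K + 1) ^ 3 * 25 ^ q) * (2 * (K + 1)) : ℝ) ≤ X := by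
      calc (5 * (Y * (K + 1) ^ 3 * 25 ^ q) * (2 * (K + 1)) : ℝ)
          = 10 * Y * (K + 1) ^ 4 * 25 ^ q := by ring
        _ ≤ 10 * Y * (x ^ 2 + 1) ^ 4 * exp (13 / 28 * x) := by gcongr
        _ ≤ X := by linarith
    exact_mod_cast h4
  have c2 : 6 * (X * (14 * (K + 1)) ^ S) ≤ n := by
    have h3 : (14 * (K + 1) : ℝ) ≤ exp (3 * l) := by
      have e : exp (3 * l) = x ^ 3 := by
        have : exp (3 * l) = (exp l) ^ 3 := by rw [← exp_nat_mul]; norm_num
        rw [this, hl, exp_log hx0]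
      rw [e]
      nlinarith [mul_pos hx0 hx0]
    have h4 : ((14 * (K + 1)) ^ S : ℝ) ≤ exp (3 / 7 * x) := by
      calc ((14 * (K + 1)) ^ S : ℝ) ≤ (exp (3 * l)) ^ S := pow_le_pow_left₀ (by positivity) h3 S
        _ = exp (S * (3 * l)) := by rw [← exp_nat_mul]
        _ ≤ _ := by
            apply exp_le_exp.2
            have h5 : (S : ℝ) * (3 * l) ≤ x / (7 * l) * (3 * l) :=
              mul_le_mul_of_nonneg_right hSle (by positivity)
            have h6 : x / (7 * l) * (3 * l) = 3 / 7 * x := by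
              field_simp
            linarith
    have h5 : (6 : ℝ) ≤ exp (1 / 14 * x) := by
      have := add_one_le_exp (1 / 14 * x)
      linarith
    have h6 : (6 * (X * (14 * (K + 1)) ^ S) : ℝ) ≤ n := by
      calc (6 * (X * (14 * (K + 1)) ^ S) : ℝ)
          ≤ exp (1 / 14 * x) * (exp (x / 2) * exp (3 / 7 * x)) := by gcongr
        _ = n := by
            rw [← exp_add, ← exp_add, ← hexp]
            congr 1
            ring
    exact_mod_cast h6
  have h7 := core hD hY hKle c1 c2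
  have h8 : (q * (S + 1) : ℝ) ≤ 2 * (sup g n).card := by exact_mod_cast h7
  have h9 : (x / 7 - 1) * (x / (7 * l)) ≤ q * (S + 1) :=
    mul_le_mul hqge hSge (by positivity) (by positivity)
  have h10 : 2 * (x ^ 2 / (100 * l) + 1) ≤ (x / 7 - 1) * (x / (7 * l)) := by
    rw [← sub_nonneg]
    have e : (x / 7 - 1) * (x / (7 * l)) - 2 * (x ^ 2 / (100 * l) + 1) =
        (x ^ 2 / 49 - x / 7 - x ^ 2 / 50 - 2 * l) / l := by
      field_simp
      ring
    rw [e]
    apply div_nonneg _ hl0.le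
    nlinarith
  linarith

end Pool.Agent.L7h5.DX
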