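import Mathlib

/-!
Sparse signed expansions of square roots: the main lemma.
-/

namespace Pool.Agent.L7h5.DX

open Finset

/-- partial sums of the expansion with digits `g` in base `b` -/
noncomputable def ps (b : ℕ) (g : ℕ → ℤ) (t : ℕ) : ℝ := ∑ k ∈ range (t + 1), (g k : ℝ) / (b : ℝ) ^ k

/-- the places `≤ n` of nonzero digits -/
def sup (g : ℕ → ℤ) (n : ℕ) : Finset ℕ := (range (n + 1)).filter fun k => g k ≠ 0

/-- the truncated square -/
noncomputable def sq (b : ℕ) (g : ℕ → ℤ) (m : ℕ) : ℝ :=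
  ∑ p ∈ (range (m + 1) ×ˢ range (m + 1)).filter (fun p => p.1 + p.2 ≤ m),
    ((g p.1 : ℝ) / (b : ℝ) ^ p.1) * ((g p.2 : ℝ) / (b : ℝ) ^ p.2)

/-- no two places of nonzero digits have the sum `k` -/
def SF (g : ℕ → ℤ) (k : ℕ) : Prop := ∀ i j, i + j = k → g i = 0 ∨ g j = 0

/-- the standing assumptions, up to the place `n` -/
structure Dat (b : ℕ) (g : ℕ → ℤ) (H : ℕ) (α : ℝ) (D : ℤ) (n : ℕ) : Prop where
  hb : 2 ≤ b
  hH : 1 ≤ H
  bd : ∀ k ≤ n, |g k| ≤ H
  app : ∀ t ≤ n, |α - ps b g t| ≤ H / (b : ℝ) ^ t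
  sq : α ^ 2 = D
  irr : Irrational α
  nv : ∀ d, 1 ≤ d → g d ≠ 0 → ∀ y, d + y ≤ n → ∑ i ∈ Icc d (d + y), g i * (b : ℤ) ^ (d + y - i) ≠ 0

variable {b : ℕ} {g : ℕ → ℤ} {H : ℕ} {α : ℝ} {D : ℤ} {n : ℕ}

theorem Dat.bpos (h : Dat b g H α D n) : (0 : ℝ) < b := by
  have := h.hb
  exact_mod_cast (by omega : 0 < b)

theorem Dat.b1 (h : Dat b g H α D n) : (1 : ℝ) ≤ b := by
  have := h.hb
  exact_mod_cast (by omega : 1 ≤ b)

/-- the square as an iterated sum -/
theorem sq_eq (m : ℕ) : sq b g m =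
    ∑ i ∈ range (m + 1), ((g i : ℝ) / (b : ℝ) ^ i) * ps b g (m - i) := by
  unfold sq ps
  rw [sum_filter, sum_product]
  refine sum_congr rfl fun i hi => ?_
  rw [mem_range] at hi
  rw [mul_sum, ← sum_filter]
  refine sum_congr ?_ fun j _ => rfl
  ext j
  simp only [mem_filter, mem_range]
  omega

/-- the truncated square is close to the square -/
theorem sq_close (h : Dat b g H α D n) {m K : ℕ} (hm : m ≤ n) (hK : (sup g n).card ≤ K) :
    |(D : ℝ) - sq b g m| ≤ (H ^ 2 * K + H * |α|) / (b : ℝ) ^ m := by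
  have hb := h.bpos
  have e : (D : ℝ) - sq b g m = α * (α - ps b g m) +
      ∑ i ∈ range (m + 1), ((g i : ℝ) / (b : ℝ) ^ i) * (α - ps b g (m - i)) := by
    rw [sq_eq, ← h.sq]
    simp only [mul_sub]
    rw [sum_sub_distrib, ← sum_mul]
    have : ∑ i ∈ range (m + 1), (g i : ℝ) / (b : ℝ) ^ i = ps b g m := rfl
    rw [this]
    ring
  rw [e]
  refine (abs_add_le _ _).trans ?_
  have h1 : |α * (α - ps b g m)| ≤ H * |α| / (b : ℝ) ^ m := by
    rw [abs_mul]
    calc |α| * |α - ps b g m| ≤ |α| * (H / (b : ℝ) ^ m) :=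
          mul_le_mul_of_nonneg_left (h.app m hm) (abs_nonneg _)
      _ = _ := by ring
  have h2 : |∑ i ∈ range (m + 1), ((g i : ℝ) / (b : ℝ) ^ i) * (α - ps b g (m - i))| ≤
      H ^ 2 * K / (b : ℝ) ^ m := by
    have e2 : ∑ i ∈ range (m + 1), ((g i : ℝ) / (b : ℝ) ^ i) * (α - ps b g (m - i)) =
        ∑ i ∈ sup g m, ((g i : ℝ) / (b : ℝ) ^ i) * (α - ps b g (m - i)) := by
      unfold sup
      rw [sum_filter]
      refine sum_congr rfl fun i _ => ?_
      split
      · rfl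
      · rename_i h0
        push Not at h0
        simp [h0]
    rw [e2]
    refine (abs_sum_le_sum_abs _ _).trans ?_
    have h3 : ∀ i ∈ sup g m, |((g i : ℝ) / (b : ℝ) ^ i) * (α - ps b g (m - i))| ≤
        H ^ 2 / (b : ℝ) ^ m := by
      intro i hi
      unfold sup at hi
      rw [mem_filter, mem_range] at hi
      rw [abs_mul, abs_div, abs_of_pos (pow_pos hb i)]
      have g1 : |(g i : ℝ)| ≤ H := by
        have := h.bd i (by omega)
        exact_mod_cast this
      have g2 := h.app (m - i) (by omega)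
      have e3 : (b : ℝ) ^ m = (b : ℝ) ^ i * (b : ℝ) ^ (m - i) := by
        rw [← pow_add]; congr 1; omega
      calc |(g i : ℝ)| / (b : ℝ) ^ i * |α - ps b g (m - i)|
          ≤ (H : ℝ) / (b : ℝ) ^ i * (H / (b : ℝ) ^ (m - i)) := by
            gcongr
        _ = H ^ 2 / (b : ℝ) ^ m := by
            rw [e3]
            field_simp
    refine (sum_le_sum h3).trans ?_
    rw [sum_const, nsmul_eq_mul]
    have h4 : ((sup g m).card : ℝ) ≤ K := by
      have : (sup g m).card ≤ (sup g n).card := by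
        apply card_le_card
        unfold sup
        intro i hi
        rw [mem_filter, mem_range] at hi ⊢
        exact ⟨by omega, hi.2⟩
      exact_mod_cast this.trans hK
    calc ((sup g m).card : ℝ) * (H ^ 2 / (b : ℝ) ^ m) ≤ K * (H ^ 2 / (b : ℝ) ^ m) :=
          mul_le_mul_of_nonneg_right h4 (by positivity)
      _ = _ := by ring
  calc _ ≤ H * |α| / (b : ℝ) ^ m + H ^ 2 * K / (b : ℝ) ^ m := add_le_add h1 h2
    _ = _ := by ring

/-- integrality: sums of products with all `i + j ≤ s` -/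
theorem int_of_le (hb : (b : ℝ) ≠ 0) (S : Finset (ℕ × ℕ)) (s : ℕ)
    (hS : ∀ p ∈ S, g p.1 ≠ 0 → g p.2 ≠ 0 → p.1 + p.2 ≤ s) :
    ∃ z : ℤ, (b : ℝ) ^ s * ∑ p ∈ S, ((g p.1 : ℝ) / (b : ℝ) ^ p.1) * ((g p.2 : ℝ) / (b : ℝ) ^ p.2) = z := by
  refine ⟨∑ p ∈ S, g p.1 * g p.2 * (b : ℤ) ^ (s - (p.1 + p.2)), ?_⟩
  rw [mul_sum]
  push_cast
  refine sum_congr rfl fun p hp => ?_
  by_cases h1 : g p.1 = 0
  · simp [h1]
  by_cases h2 : g p.2 = 0
  · simp [h2]
  have h3 := hS p hp h1 h2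
  have e3 : (b : ℝ) ^ s = (b : ℝ) ^ p.1 * (b : ℝ) ^ p.2 * (b : ℝ) ^ (s - (p.1 + p.2)) := by
    rw [← pow_add, ← pow_add]; congr 1; omega
  rw [e3]
  field_simp

theorem sq_succ (m : ℕ) (hSF : SF g (m + 1)) : sq b g (m + 1) = sq b g m := by
  unfold sq
  symm
  apply sum_subset
  · intro p hp
    simp only [mem_filter, mem_product, mem_range] at hp ⊢
    omega
  · intro p hp hp2
    simp only [mem_filter, mem_product, mem_range] at hp hp2
    have h1 : p.1 + p.2 = m + 1 := by omega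
    rcases hSF p.1 p.2 h1 with h | h <;> simp [h]

theorem sq_add (m L : ℕ) (hSF : ∀ k, m < k → k ≤ m + L → SF g k) : sq b g (m + L) = sq b g m := by
  induction L with
  | zero => rfl
  | succ L ih =>
    rw [← add_assoc, sq_succ _ (hSF _ (by omega) (by omega))]
    exact ih fun k h1 h2 => hSF k h1 (by omega)

/-- before a gap of the sums the truncated square is exact -/
theorem quiet (h : Dat b g H α D n) {m L K : ℕ} (hm : m + L ≤ n) (hK : (sup g n).card ≤ K)
    (hL : (H ^ 2 * K + H * |α|) < (b : ℝ) ^ L) (hSF : ∀ k, m < k → k ≤ m + L → SF g k) :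
    sq b g m = D := by
  have hb := h.bpos
  obtain ⟨z, hz⟩ := int_of_le (g := g) hb.ne'
    ((range (m + 1) ×ˢ range (m + 1)).filter (fun p => p.1 + p.2 ≤ m)) m (by
      intro p hp _ _
      rw [mem_filter] at hp
      exact hp.2)
  have h1 := sq_close h hm hK
  rw [sq_add m L hSF] at h1
  have h2 : |(b : ℝ) ^ m * ((D : ℝ) - sq b g m)| < 1 := by
    rw [abs_mul, abs_of_pos (pow_pos hb m)]
    calc (b : ℝ) ^ m * |(D : ℝ) - sq b g m| ≤
          (b : ℝ) ^ m * ((H ^ 2 * K + H * |α|) / (b : ℝ) ^ (m + L)) :=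
          mul_le_mul_of_nonneg_left h1 (by positivity)
      _ = (H ^ 2 * K + H * |α|) / (b : ℝ) ^ L := by
          rw [pow_add]
          field_simp
      _ < 1 := by
          rw [div_lt_one (pow_pos hb L)]
          exact hL
  have h3 : (b : ℝ) ^ m * ((D : ℝ) - sq b g m) = (((b : ℤ) ^ m * D - z : ℤ) : ℝ) := by
    push_cast
    rw [← hz]
    unfold sq
    ring
  rw [h3] at h2
  have h4 : (b : ℤ) ^ m * D - z = 0 := by
    rw [← Int.abs_lt_one_iff]
    exact_mod_cast h2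
  rw [h4] at h3
  push_cast at h3
  have h5 := (mul_eq_zero.1 h3).resolve_left (pow_pos hb m).ne'
  linarith

end Pool.Agent.L7h5.DX
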