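import Mathlib

/-!
Differences at many scales: a finite set of integers having differences `e 0, e 1, ..., e (q-1)`
with `e (i+1) ≥ 5 e i > 0` has at least `q` elements.
-/

namespace Pool.Agent.L7h5.DX

open Finset

theorem dif_aux (P : Finset ℤ) (e : ℕ → ℤ) (he0 : 0 < e 0) (q : ℕ)
    (he : ∀ i, i + 1 < q → 5 * e i ≤ e (i + 1))
    (hp : ∀ i < q, ∃ x ∈ P, ∃ y ∈ P, x - y = e i) :
    ∀ r ≤ q, ∃ c : ℤ → ℤ, (P.image c).card + r ≤ P.card ∧
      ∀ x ∈ P, ∀ y ∈ P, c x = c y → |x - y| ≤ (if r = 0 then 0 else 2 * e (r - 1)) := by
  intro r
  induction r with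
  | zero =>
    intro _
    refine ⟨id, by simp, ?_⟩
    intro x _ y _ h
    simp only [id] at h
    simp [h]
  | succ r ih =>
    intro hr
    obtain ⟨c, hc1, hc2⟩ := ih (by omega)
    obtain ⟨x0, hx0, y0, hy0, hxy⟩ := hp r (by omega)
    set S : ℤ := if r = 0 then 0 else 2 * e (r - 1) with hS
    -- positivity
    have hpos : ∀ i < q, 0 < e i := by
      intro i
      induction i with
      | zero => intro _; exact he0
      | succ i ih2 =>
        intro hi
        have h1 := he i hi
        have h2 := ih2 (by omega)
        linarith
    have her : 0 < e r := hpos r (by omega)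
    have hS0 : 0 ≤ S := by
      rw [hS]
      split
      · exact le_rfl
      · have := hpos (r - 1) (by omega)
        linarith
    have hSe : S < e r := by
      rw [hS]
      split
      · exact her
      · rename_i h0
        have h1 := he (r - 1) (by omega)
        have h2 := hpos (r - 1) (by omega)
        have h3 : r - 1 + 1 = r := by omega
        rw [h3] at h1
        linarith
    have hS2 : 2 * S + e r ≤ 2 * e r := by
      rw [hS]
      split
      · linarith
      · rename_i h0
        have h1 := he (r - 1) (by omega)
        have h2 := hpos (r - 1) (by omega)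
        have h3 : r - 1 + 1 = r := by omega
        rw [h3] at h1
        linarith
    have hne : c x0 ≠ c y0 := by
      intro h
      have := hc2 x0 hx0 y0 hy0 h
      rw [hxy, abs_of_pos her] at this
      linarith
    refine ⟨fun x => if c x = c y0 then c x0 else c x, ?_, ?_⟩
    · have hsub : P.image (fun x => if c x = c y0 then c x0 else c x) ⊆
          (P.image c).erase (c y0) := by
        intro z hz
        rw [mem_image] at hz
        obtain ⟨x, hx, rfl⟩ := hz
        rw [mem_erase]
        split
        · exact ⟨hne, mem_image_of_mem c hx0⟩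
        · rename_i h
          exact ⟨h, mem_image_of_mem c hx⟩
      have h1 := card_le_card hsub
      rw [card_erase_of_mem (mem_image_of_mem c hy0)] at h1
      have h2 : 0 < (P.image c).card := card_pos.2 ⟨_, mem_image_of_mem c hy0⟩
      omega
    · intro x hx y hy h
      simp only at h
      have hgoal : |x - y| ≤ 2 * S + e r := by
        have e1 : |x0 - y0| = e r := by rw [hxy, abs_of_pos her]
        split_ifs at h with h1 h2 h2
        · have := hc2 x hx y hy (by rw [h1, h2])
          linarith
        · -- c x = c y0, c x0 = c y
          have a1 := hc2 x hx y0 hy0 h1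
          have a2 := hc2 x0 hx0 y hy h
          have e2 : x - y = (x - y0) - (x0 - y0) + (x0 - y) := by ring
          rw [e2]
          have t1 := abs_add_le ((x - y0) - (x0 - y0)) (x0 - y)
          have t2 := abs_sub (x - y0) (x0 - y0)
          linarith
        · have a1 := hc2 y hy y0 hy0 h2
          have a2 := hc2 x hx x0 hx0 h
          have e2 : x - y = (x - x0) + (x0 - y0) - (y - y0) := by ring
          rw [e2]
          have t1 := abs_sub ((x - x0) + (x0 - y0)) (y - y0)
          have t2 := abs_add_le (x - x0) (x0 - y0)
          linarith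
        · have := hc2 x hx y hy h
          linarith
      rw [if_neg (by omega), show r + 1 - 1 = r by omega]
      linarith

theorem dif (P : Finset ℤ) (e : ℕ → ℤ) (q : ℕ) (he0 : 0 < e 0)
    (he : ∀ i, i + 1 < q → 5 * e i ≤ e (i + 1))
    (hp : ∀ i < q, ∃ x ∈ P, ∃ y ∈ P, x - y = e i) : q ≤ P.card := by
  obtain ⟨c, hc, _⟩ := dif_aux P e he0 q he hp q le_rfl
  omega

end Pool.Agent.L7h5.DX
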