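import Pool.Agent.L7h5.DX.Asy

/-!
Signed expansions and digit changes of real quadratic irrationals.
-/

namespace Pool.Agent.L7h5.DX

open Finset Filter

theorem lead_ne {b : ℕ} (hb : 2 ≤ b) (a : ℕ → ℤ) (d y : ℕ) (hd : a d ≠ 0)
    (ha : ∀ i ∈ Icc d (d + y), |a i| ≤ b - 1) :
    1 ≤ |∑ i ∈ Icc d (d + y), a i * (b : ℤ) ^ (d + y - i)| := by
  induction y with
  | zero =>
    simp
    exact Int.one_le_abs hd
  | succ y ih =>
    have h0 := ih fun i hi => ha i (by rw [mem_Icc] at hi ⊢; omega)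
    rw [← add_assoc, sum_Icc_succ_top (by omega)]
    have h1 : ∑ i ∈ Icc d (d + y), a i * (b : ℤ) ^ (d + y + 1 - i) =
        b * ∑ i ∈ Icc d (d + y), a i * (b : ℤ) ^ (d + y - i) := by
      rw [mul_sum]
      refine sum_congr rfl fun i hi => ?_
      rw [mem_Icc] at hi
      have : d + y + 1 - i = d + y - i + 1 := by omega
      rw [this, pow_succ]
      ring
    rw [h1, Nat.sub_self, pow_zero, mul_one]
    have h2 := ha (d + (y + 1)) (by rw [mem_Icc]; omega)
    rw [← add_assoc] at h2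
    have hb0 : (2 : ℤ) ≤ b := by exact_mod_cast hb
    set T := ∑ i ∈ Icc d (d + y), a i * (b : ℤ) ^ (d + y - i)
    have h3 : (b : ℤ) * |T| - |a (d + y + 1)| ≤ |(b : ℤ) * T + a (d + y + 1)| := by
      have := abs_sub_abs_le_abs_sub ((b : ℤ) * T) (-(a (d + y + 1)))
      rw [abs_neg, sub_neg_eq_add, abs_mul, abs_of_nonneg (by linarith : (0 : ℤ) ≤ b)] at this
      exact this
    nlinarith

/-- truncations of a signed expansion -/
theorem trunc {b : ℕ} (hb : 2 ≤ b) (ξ : ℝ) (a : ℕ → ℤ) (n : ℕ)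
    (ha : ∀ k ∈ Icc 1 n, |a k| ≤ b - 1) (happ : |ξ - ps b a n| ≤ 1 / (b : ℝ) ^ n) :
    ∀ t ≤ n, |ξ - ps b a t| ≤ 1 / (b : ℝ) ^ t := by
  have hb0 : (0 : ℝ) < b := by exact_mod_cast (by omega : 0 < b)
  have key : ∀ s, s ≤ n → |ξ - ps b a (n - s)| ≤ 1 / (b : ℝ) ^ (n - s) := by
    intro s
    induction s with
    | zero => intro _; simpa using happ
    | succ s ih =>
      intro hs
      have h1 := ih (by omega)
      have e : n - s = n - (s + 1) + 1 := by omega
      rw [e] at h1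
      set t := n - (s + 1)
      have e2 : ps b a (t + 1) = ps b a t + (a (t + 1) : ℝ) / (b : ℝ) ^ (t + 1) := by
        unfold ps
        rw [sum_range_succ]
      rw [e2] at h1
      have h2 := ha (t + 1) (by rw [mem_Icc]; omega)
      have h3 : |(a (t + 1) : ℝ)| ≤ b - 1 := by
        have : ((|a (t + 1)| : ℤ) : ℝ) ≤ ((b - 1 : ℤ) : ℝ) := by exact_mod_cast h2
        push_cast at this
        exact this
      have e3 : ξ - ps b a t = (ξ - (ps b a t + (a (t + 1) : ℝ) / (b : ℝ) ^ (t + 1))) +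
          (a (t + 1) : ℝ) / (b : ℝ) ^ (t + 1) := by ring
      rw [e3]
      refine (abs_add_le _ _).trans ?_
      rw [abs_div, abs_of_pos (pow_pos hb0 (t + 1))]
      calc _ ≤ 1 / (b : ℝ) ^ (t + 1) + (b - 1) / (b : ℝ) ^ (t + 1) := by gcongr
        _ = 1 / (b : ℝ) ^ t := by
            rw [pow_succ]
            field_simp
            ring
  intro t ht
  have := key (n - t) (by omega)
  rwa [show n - (n - t) = t by omega] at this

/-- signed expansions of quadratic irrationals have many nonzero digits -/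
theorem signed (b : ℕ) (hb : 2 ≤ b) (A B C : ℤ) (hA : A ≠ 0) (ξ : ℝ) (hξ : Irrational ξ)
    (hroot : (A : ℝ) * ξ ^ 2 + B * ξ + C = 0) : ∃ n₀ : ℕ, ∀ n ≥ n₀, ∀ a : ℕ → ℤ,
      (∀ k ∈ Icc 1 n, |a k| ≤ b - 1) →
      |ξ - ∑ k ∈ range (n + 1), (a k : ℝ) / (b : ℝ) ^ k| ≤ 1 / (b : ℝ) ^ n →
      (Real.log n) ^ 2 / (100 * Real.log (Real.log n)) ≤
        (((Icc 1 n).filter fun k => a k ≠ 0).card : ℝ) := by
  set H : ℕ := 2 * A.natAbs * (b + ⌈|ξ|⌉₊ + 1) + B.natAbs + 1 with hH
  set α : ℝ := 2 * A * ξ + B with hα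
  obtain ⟨n₀, hn₀⟩ := asy b H hb α
  refine ⟨n₀, fun n hn a ha happ => ?_⟩
  have happ' := trunc hb ξ a n ha happ
  set g : ℕ → ℤ := fun k => if k = 0 then 2 * A * a 0 + B else 2 * A * a k with hg
  have hAr : (A : ℝ) ≠ 0 := by exact_mod_cast hA
  have hAabs : |(A : ℝ)| = (A.natAbs : ℝ) := by
    rw [← Int.cast_abs, Int.abs_eq_natAbs]; simp
  have hBabs : |(B : ℝ)| = (B.natAbs : ℝ) := by
    rw [← Int.cast_abs, Int.abs_eq_natAbs]; simp
  have hps : ∀ t, ps b g t = 2 * A * ps b a t + B := by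
    intro t
    induction t with
    | zero =>
      unfold ps
      simp [hg]
    | succ t ih =>
      have e2 : ps b g (t + 1) = ps b g t + (g (t + 1) : ℝ) / (b : ℝ) ^ (t + 1) := by
        unfold ps
        rw [sum_range_succ]
      have e3 : ps b a (t + 1) = ps b a t + (a (t + 1) : ℝ) / (b : ℝ) ^ (t + 1) := by
        unfold ps
        rw [sum_range_succ]
      rw [e2, e3, ih]
      have : g (t + 1) = 2 * A * a (t + 1) := by simp [hg]
      rw [this]
      push_cast
      ring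
  have hD : Dat b g H α (B ^ 2 - 4 * A * C) n := by
    refine ⟨hb, by omega, ?_, ?_, ?_, ?_, ?_⟩
    · intro k hk
      rcases Nat.eq_zero_or_pos k with h0 | h0
      · subst h0
        have h1 := happ' 0 (Nat.zero_le _)
        have e : ps b a 0 = a 0 := by unfold ps; simp
        rw [e, pow_zero, div_one] at h1
        have h2 : |(a 0 : ℝ)| ≤ |ξ| + 1 := by
          have e : (a 0 : ℝ) = ξ - (ξ - a 0) := by ring
          rw [e]
          exact (abs_sub _ _).trans (by linarith)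
        have h3 : |(g 0 : ℝ)| ≤ H := by
          have e : (g 0 : ℝ) = 2 * A * a 0 + B := by simp [hg]
          rw [e]
          refine (abs_add_le _ _).trans ?_
          rw [abs_mul, abs_mul, abs_two, hAabs, hBabs, hH]
          push_cast
          have h4 : |ξ| ≤ (⌈|ξ|⌉₊ : ℝ) := Nat.le_ceil _
          have h5 : (0 : ℝ) ≤ A.natAbs := by positivity
          have h6 : (0 : ℝ) ≤ b := by positivity
          have h7 : 2 * (A.natAbs : ℝ) * |(a 0 : ℝ)| ≤ 2 * A.natAbs * (b + ⌈|ξ|⌉₊ + 1) := by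
            gcongr
            linarith
          linarith
        exact_mod_cast h3
      · have h1 := ha k (by rw [mem_Icc]; omega)
        have e : g k = 2 * A * a k := by
          simp only [hg]
          rw [if_neg (by omega)]
        rw [e, abs_mul, abs_mul, hH]
        have h2 : |A| = (A.natAbs : ℤ) := Int.abs_eq_natAbs A
        rw [h2]
        push_cast
        have h3 : (0 : ℤ) ≤ |A| := abs_nonneg _
        have h4 : (0 : ℤ) ≤ |B| := abs_nonneg _
        have h5 : (0 : ℤ) ≤ (⌈|ξ|⌉₊ : ℤ) := by positivity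
        have h6 : |(2 : ℤ)| * |A| * |a k| ≤ 2 * |A| * (b + ⌈|ξ|⌉₊ + 1) := by
          rw [abs_two]
          gcongr
          linarith
        linarith
    · intro t ht
      rw [hps, hα]
      have e : 2 * (A : ℝ) * ξ + B - (2 * A * ps b a t + B) = 2 * A * (ξ - ps b a t) := by ring
      rw [e, abs_mul, abs_mul, abs_two, hAabs]
      have h1 := happ' t ht
      have h2 : (2 * A.natAbs : ℝ) ≤ H := by
        rw [hH]
        push_cast
        have h5 : (0 : ℝ) ≤ A.natAbs := by positivity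
        have h6 : (0 : ℝ) ≤ b := by positivity
        have h7 : (0 : ℝ) ≤ (⌈|ξ|⌉₊ : ℝ) := by positivity
        have h8 : (0 : ℝ) ≤ B.natAbs := by positivity
        nlinarith [mul_nonneg h5 h6, mul_nonneg h5 h7]
      have hb0 : (0 : ℝ) < (b : ℝ) ^ t := by
        have : (0 : ℝ) < b := by exact_mod_cast (by omega : 0 < b)
        positivity
      calc 2 * (A.natAbs : ℝ) * |ξ - ps b a t| ≤ H * (1 / (b : ℝ) ^ t) := by gcongr
        _ = _ := by ring
    · rw [hα]
      push_cast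
      linear_combination 4 * (A : ℝ) * hroot
    · rw [hα]
      have h1 : Irrational (((2 * A : ℤ) : ℝ) * ξ) := by
        apply Irrational.intCast_mul hξ
        omega
      have h2 := h1.add_intCast B
      push_cast at h2
      exact h2
    · intro d hd hgd y hy
      have e : ∀ i ∈ Icc d (d + y), g i * (b : ℤ) ^ (d + y - i) =
          2 * A * (a i * (b : ℤ) ^ (d + y - i)) := by
        intro i hi
        rw [mem_Icc] at hi
        simp only [hg]
        rw [if_neg (by omega)]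
        ring
      rw [sum_congr rfl e, ← mul_sum]
      have had : a d ≠ 0 := by
        intro h0
        apply hgd
        simp only [hg]
        rw [if_neg (by omega), h0, mul_zero]
      have h1 := lead_ne hb a d y had (fun i hi => ha i (by rw [mem_Icc] at hi ⊢; omega))
      have h2 : ∑ i ∈ Icc d (d + y), a i * (b : ℤ) ^ (d + y - i) ≠ 0 := by
        intro h0
        rw [h0] at h1
        simp at h1
      exact mul_ne_zero (by omega) h2
  have h1 := hn₀ n hn g _ hD
  have h2 : (sup g n).card ≤ ((Icc 1 n).filter fun k => a k ≠ 0).card + 1 := by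
    have h3 : sup g n ⊆ insert 0 ((Icc 1 n).filter fun k => a k ≠ 0) := by
      intro k hk
      unfold sup at hk
      rw [mem_filter, mem_range] at hk
      rw [mem_insert, mem_filter, mem_Icc]
      rcases Nat.eq_zero_or_pos k with h0 | h0
      · exact Or.inl h0
      · right
        refine ⟨⟨h0, by omega⟩, ?_⟩
        intro h4
        apply hk.2
        simp only [hg]
        rw [if_neg (by omega), h4, mul_zero]
    exact (card_le_card h3).trans (card_insert_le _ _)
  have h3 : ((sup g n).card : ℝ) ≤ (((Icc 1 n).filter fun k => a k ≠ 0).card : ℝ) + 1 := by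
    exact_mod_cast h2
  linarith

/-- the digit number `k` after the point of `ξ` in base `b` -/
noncomputable def digit (b : ℕ) (ξ : ℝ) (k : ℕ) : ℤ := ⌊ξ * (b : ℝ) ^ k⌋ % (b : ℤ)

theorem digit_succ {b : ℕ} (hb : 2 ≤ b) (ξ : ℝ) (k : ℕ) :
    digit b ξ (k + 1) = ⌊ξ * (b : ℝ) ^ (k + 1)⌋ - b * ⌊ξ * (b : ℝ) ^ k⌋ := by
  unfold digit
  have hb0 : (0 : ℝ) < b := by exact_mod_cast (by omega : 0 < b)
  have hb1 : (0 : ℤ) < b := by exact_mod_cast (by omega : 0 < b)
  set F := ⌊ξ * (b : ℝ) ^ k⌋ with hF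
  set G := ⌊ξ * (b : ℝ) ^ (k + 1)⌋ with hG
  have h1 : (F : ℝ) ≤ ξ * (b : ℝ) ^ k := Int.floor_le _
  have h2 : ξ * (b : ℝ) ^ k < F + 1 := Int.lt_floor_add_one _
  have e : ξ * (b : ℝ) ^ (k + 1) = b * (ξ * (b : ℝ) ^ k) := by rw [pow_succ]; ring
  have h3 : (b : ℤ) * F ≤ G := by
    rw [hG, Int.le_floor, e]
    push_cast
    exact mul_le_mul_of_nonneg_left h1 hb0.le
  have h4 : G < b * F + b := by
    rw [hG, Int.floor_lt, e]
    push_cast
    have := mul_lt_mul_of_pos_left h2 hb0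
    linarith
  have h5 : G = (G - b * F) + b * F := by ring
  conv_lhs => rw [h5]
  rw [Int.add_mul_emod_self_left]
  exact Int.emod_eq_of_lt (by linarith) (by linarith)

theorem digit_mem {b : ℕ} (hb : 2 ≤ b) (ξ : ℝ) (k : ℕ) : 0 ≤ digit b ξ k ∧ digit b ξ k ≤ b - 1 := by
  unfold digit
  have hb1 : (0 : ℤ) < b := by exact_mod_cast (by omega : 0 < b)
  exact ⟨Int.emod_nonneg _ hb1.ne', by have := Int.emod_lt_of_pos ⌊ξ * (b : ℝ) ^ k⌋ hb1; linarith⟩

/-- quadratic irrationals have many digit changes -/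
theorem changes (b : ℕ) (hb : 2 ≤ b) (A B C : ℤ) (hA : A ≠ 0) (ξ : ℝ) (hξ : Irrational ξ)
    (hroot : (A : ℝ) * ξ ^ 2 + B * ξ + C = 0) : ∃ n₀ : ℕ, ∀ n ≥ n₀,
      (Real.log n) ^ 2 / (100 * Real.log (Real.log n)) ≤
        (((Icc 1 n).filter fun k => digit b ξ k ≠ digit b ξ (k + 1)).card : ℝ) := by
  have hb0 : (0 : ℝ) < b := by exact_mod_cast (by omega : 0 < b)
  have hη : Irrational (((b - 1 : ℤ) : ℝ) * ξ) := by
    apply Irrational.intCast_mul hξ
    omega
  obtain ⟨n₀, hn₀⟩ := signed b hb A ((b - 1) * B) ((b - 1) ^ 2 * C) hA _ hη (by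
    push_cast
    linear_combination ((b : ℝ) - 1) ^ 2 * hroot)
  refine ⟨n₀, fun n hn => ?_⟩
  set a : ℕ → ℤ := fun k => if k = 0 then ⌊ξ * (b : ℝ) ^ 1⌋ - ⌊ξ * (b : ℝ) ^ 0⌋
    else digit b ξ (k + 1) - digit b ξ k with ha
  have hsum : ∀ t, ∑ k ∈ range (t + 1), (a k : ℝ) / (b : ℝ) ^ k =
      ((⌊ξ * (b : ℝ) ^ (t + 1)⌋ : ℝ) - ⌊ξ * (b : ℝ) ^ t⌋) / (b : ℝ) ^ t := by
    intro t
    induction t with
    | zero => simp [ha]
    | succ t ih =>
      rw [sum_range_succ, ih]
      have e : a (t + 1) = digit b ξ (t + 1 + 1) - digit b ξ (t + 1) := by simp [ha]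
      rw [e, digit_succ hb, digit_succ hb]
      push_cast
      rw [pow_succ (b : ℝ) t]
      field_simp
      ring
  have h1 := hn₀ n hn a (by
    intro k hk
    rw [mem_Icc] at hk
    simp only [ha]
    rw [if_neg (by omega), abs_le]
    have h1 := digit_mem hb ξ k
    have h2 := digit_mem hb ξ (k + 1)
    constructor <;> linarith) (by
    rw [hsum n]
    have hbn : (0 : ℝ) < (b : ℝ) ^ n := pow_pos hb0 n
    have e : ((b - 1 : ℤ) : ℝ) * ξ - ((⌊ξ * (b : ℝ) ^ (n + 1)⌋ : ℝ) - ⌊ξ * (b : ℝ) ^ n⌋) / (b : ℝ) ^ n =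
        ((ξ * (b : ℝ) ^ (n + 1) - ⌊ξ * (b : ℝ) ^ (n + 1)⌋) - (ξ * (b : ℝ) ^ n - ⌊ξ * (b : ℝ) ^ n⌋)) /
          (b : ℝ) ^ n := by
      push_cast
      rw [pow_succ]
      field_simp
      ring
    rw [e, abs_div, abs_of_pos hbn]
    apply div_le_div_of_nonneg_right _ hbn.le
    have h1 := Int.fract_nonneg (ξ * (b : ℝ) ^ (n + 1))
    have h2 := Int.fract_lt_one (ξ * (b : ℝ) ^ (n + 1))
    have h3 := Int.fract_nonneg (ξ * (b : ℝ) ^ n)
    have h4 := Int.fract_lt_one (ξ * (b : ℝ) ^ n)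
    unfold Int.fract at h1 h2 h3 h4
    rw [abs_le]
    constructor <;> linarith)
  refine h1.trans (le_of_eq ?_)
  congr 2
  apply filter_congr
  intro k hk
  rw [mem_Icc] at hk
  simp only [ha]
  rw [if_neg (by omega), sub_ne_zero]
  exact ⟨fun h => h.symm, fun h => h.symm⟩

end Pool.Agent.L7h5.DX
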