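import Pool.Agent.L7h5.DX.Core

/-!
The main lemma: to the right of a place `d` of a nonzero digit, at every scale `y`, there is another
place of a nonzero digit or a sum of two places smaller than `d`.
-/

namespace Pool.Agent.L7h5.DX

open Finset

variable {b : ℕ} {g : ℕ → ℤ} {H : ℕ} {α : ℝ} {D : ℤ} {n : ℕ}

/-- the part of the truncated square coming from the places smaller than `d` -/
noncomputable def low (b : ℕ) (g : ℕ → ℤ) (d m : ℕ) : ℝ :=
  ∑ p ∈ (range (m + 1) ×ˢ range (m + 1)).filter (fun p => p.1 + p.2 ≤ m ∧ p.1 < d ∧ p.2 < d),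
    ((g p.1 : ℝ) / (b : ℝ) ^ p.1) * ((g p.2 : ℝ) / (b : ℝ) ^ p.2)

theorem sq_split (d m : ℕ) (hm : m < 2 * d) : sq b g m =
    2 * ∑ i ∈ Icc d m, ((g i : ℝ) / (b : ℝ) ^ i) * ps b g (m - i) + low b g d m := by
  set f : ℕ × ℕ → ℝ := fun p => ((g p.1 : ℝ) / (b : ℝ) ^ p.1) * ((g p.2 : ℝ) / (b : ℝ) ^ p.2) with hf
  have h1 : ∑ i ∈ Icc d m, ((g i : ℝ) / (b : ℝ) ^ i) * ps b g (m - i) =
      ∑ p ∈ (range (m + 1) ×ˢ range (m + 1)).filter (fun p => p.1 + p.2 ≤ m ∧ d ≤ p.1), f p := by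
    unfold ps
    rw [sum_filter, sum_product]
    have e0 : Icc d m = (range (m + 1)).filter (fun i => d ≤ i) := by
      ext i; simp only [mem_Icc, mem_filter, mem_range]; omega
    rw [e0, sum_filter]
    refine sum_congr rfl fun i hi => ?_
    rw [mem_range] at hi
    split
    · rename_i hd
      rw [mul_sum, ← sum_filter]
      refine sum_congr ?_ fun j _ => rfl
      ext j
      simp only [mem_filter, mem_range]
      omega
    · rename_i hd
      symm
      apply sum_eq_zero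
      intro j _
      rw [if_neg]
      simp only
      omega
  have h2 : ∑ p ∈ (range (m + 1) ×ˢ range (m + 1)).filter (fun p => p.1 + p.2 ≤ m ∧ d ≤ p.2), f p =
      ∑ p ∈ (range (m + 1) ×ˢ range (m + 1)).filter (fun p => p.1 + p.2 ≤ m ∧ d ≤ p.1), f p := by
    refine sum_nbij' Prod.swap Prod.swap ?_ ?_ ?_ ?_ ?_
    · intro p hp
      simp only [mem_filter, mem_product, mem_range, Prod.fst_swap, Prod.snd_swap] at hp ⊢
      omega
    · intro p hp
      simp only [mem_filter, mem_product, mem_range, Prod.fst_swap, Prod.snd_swap] at hp ⊢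
      omega
    · intro p _; simp
    · intro p _; simp
    · intro p _
      simp only [hf, Prod.fst_swap, Prod.snd_swap]
      ring
  have h3 : (range (m + 1) ×ˢ range (m + 1)).filter (fun p => p.1 + p.2 ≤ m) =
      ((range (m + 1) ×ˢ range (m + 1)).filter (fun p => p.1 + p.2 ≤ m ∧ d ≤ p.1) ∪
      (range (m + 1) ×ˢ range (m + 1)).filter (fun p => p.1 + p.2 ≤ m ∧ d ≤ p.2)) ∪
      (range (m + 1) ×ˢ range (m + 1)).filter (fun p => p.1 + p.2 ≤ m ∧ p.1 < d ∧ p.2 < d) := by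
    ext p
    simp only [mem_filter, mem_union, mem_product, mem_range]
    omega
  unfold sq low
  rw [h3, sum_union, sum_union]
  · rw [h1, h2]
    ring
  · rw [disjoint_left]
    intro p hp hp2
    simp only [mem_filter, mem_product, mem_range] at hp hp2
    omega
  · rw [disjoint_left]
    intro p hp hp2
    simp only [mem_filter, mem_union, mem_product, mem_range] at hp hp2
    omega

/-- a gap of the sums inside a long interval -/
theorem exists_gap (K L s t : ℕ) (hK : (sup g n).card ≤ K) (_hL : 1 ≤ L)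
    (ht : s + (K ^ 2 + 1) * L ≤ t)
    (hbad : ∀ k, s < k → k ≤ t → ∀ i j, i + j = k → g i ≠ 0 → g j ≠ 0 → i ≤ n ∧ j ≤ n) :
    ∃ m, s ≤ m ∧ m + L ≤ t ∧ ∀ k, m < k → k ≤ m + L → SF g k := by
  by_contra hcon
  push Not at hcon
  -- each block contains a bad place
  have h1 : ∀ r : ℕ, r < K ^ 2 + 1 → ∃ k, s + r * L < k ∧ k ≤ s + r * L + L ∧ ¬ SF g k := by
    intro r hr
    have h2 : r * L + L ≤ (K ^ 2 + 1) * L := by
      calc r * L + L = (r + 1) * L := by ring
        _ ≤ _ := Nat.mul_le_mul_right _ (by omega)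
    obtain ⟨k, hk1, hk2, hk3⟩ := hcon (s + r * L) (by omega) (by omega)
    exact ⟨k, hk1, hk2, hk3⟩
  choose! kk hk1 hk2 hk3 using h1
  set S := (sup g n ×ˢ sup g n).image (fun p => p.1 + p.2) with hS
  have hcard : S.card ≤ K ^ 2 := by
    calc S.card ≤ (sup g n ×ˢ sup g n).card := card_image_le
      _ = (sup g n).card * (sup g n).card := card_product _ _
      _ ≤ K * K := Nat.mul_le_mul hK hK
      _ = K ^ 2 := by ring
  have hmap : ∀ r ∈ range (K ^ 2 + 1), kk r ∈ S := by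
    intro r hr
    rw [mem_range] at hr
    have h3 := hk3 r hr
    unfold SF at h3
    push Not at h3
    obtain ⟨i, j, hij, hi, hj⟩ := h3
    have h2 : r * L + L ≤ (K ^ 2 + 1) * L := by
      calc r * L + L = (r + 1) * L := by ring
        _ ≤ _ := Nat.mul_le_mul_right _ (by omega)
    have h4 := hk1 r hr
    have h5 := hk2 r hr
    obtain ⟨hi2, hj2⟩ := hbad (kk r) (by omega) (by omega) i j hij hi hj
    rw [hS, mem_image]
    refine ⟨(i, j), ?_, hij⟩
    rw [mem_product]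
    unfold sup
    simp only [mem_filter, mem_range]
    exact ⟨⟨by omega, hi⟩, ⟨by omega, hj⟩⟩
  have hinj : Set.InjOn kk (range (K ^ 2 + 1) : Finset ℕ) := by
    intro r hr r' hr' hrr
    rw [coe_range, Set.mem_Iio] at hr hr'
    by_contra hne
    have a1 := hk1 r hr
    have a2 := hk2 r hr
    have a3 := hk1 r' hr'
    have a4 := hk2 r' hr'
    rcases Nat.lt_or_gt_of_ne hne with h | h
    · have : r * L + L ≤ r' * L := by
        calc r * L + L = (r + 1) * L := by ring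
          _ ≤ _ := Nat.mul_le_mul_right _ h
      omega
    · have : r' * L + L ≤ r * L := by
        calc r' * L + L = (r' + 1) * L := by ring
          _ ≤ _ := Nat.mul_le_mul_right _ h
      omega
  have := card_le_card_of_injOn kk hmap hinj
  rw [card_range] at this
  omega

/-- geometric bound for the local sum -/
theorem local_le (hb : 2 ≤ b) (H y d : ℕ) (hg : ∀ i ∈ Icc d (d + y), |g i| ≤ H) :
    |∑ i ∈ Icc d (d + y), g i * (b : ℤ) ^ (d + y - i)| ≤ H * (2 * (b : ℤ) ^ y - 1) := by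
  have hb0 : (2 : ℤ) ≤ b := by exact_mod_cast hb
  have hH0 : (0 : ℤ) ≤ H := by positivity
  induction y with
  | zero =>
    have h1 := hg d (by simp)
    simp
    linarith
  | succ y ih =>
    rw [← add_assoc, sum_Icc_succ_top (by omega)]
    have h1 : ∑ i ∈ Icc d (d + y), g i * (b : ℤ) ^ (d + y + 1 - i) =
        b * ∑ i ∈ Icc d (d + y), g i * (b : ℤ) ^ (d + y - i) := by
      rw [mul_sum]
      refine sum_congr rfl fun i hi => ?_
      rw [mem_Icc] at hi
      have : d + y + 1 - i = d + y - i + 1 := by omega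
      rw [this, pow_succ]
      ring
    rw [h1, Nat.sub_self, pow_zero, mul_one]
    have h2 := hg (d + (y + 1)) (by rw [mem_Icc]; omega)
    rw [← add_assoc] at h2
    have h3 := ih fun i hi => hg i (by rw [mem_Icc] at hi ⊢; omega)
    calc |(b : ℤ) * ∑ i ∈ Icc d (d + y), g i * (b : ℤ) ^ (d + y - i) + g (d + y + 1)|
        ≤ |(b : ℤ) * ∑ i ∈ Icc d (d + y), g i * (b : ℤ) ^ (d + y - i)| + |g (d + y + 1)| :=
          abs_add_le _ _
      _ ≤ b * (H * (2 * (b : ℤ) ^ y - 1)) + H := by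
          rw [abs_mul, abs_of_nonneg (by linarith : (0 : ℤ) ≤ b)]
          exact add_le_add (mul_le_mul_of_nonneg_left h3 (by linarith)) h2
      _ ≤ _ := by
          rw [pow_succ]
          nlinarith

/-- `D u^2` is never a square -/
theorem norm_ne (hsq : α ^ 2 = D) (hirr : Irrational α) (u v : ℤ) (hu : u ≠ 0) :
    4 * D * u ^ 2 - v ^ 2 ≠ 0 := by
  intro h
  have h1 : (2 * α * u) ^ 2 = (v : ℝ) ^ 2 := by
    have : (4 * (D : ℝ) * u ^ 2 - v ^ 2) = 0 := by exact_mod_cast h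
    have e : (2 * α * u) ^ 2 = 4 * α ^ 2 * u ^ 2 := by ring
    rw [e, hsq]
    linarith
  have hu' : (u : ℝ) ≠ 0 := by exact_mod_cast hu
  rcases sq_eq_sq_iff_eq_or_eq_neg.1 h1 with h2 | h2
  · apply hirr
    refine ⟨(v : ℚ) / (2 * u), ?_⟩
    push_cast
    field_simp
    linarith
  · apply hirr
    refine ⟨-(v : ℚ) / (2 * u), ?_⟩
    push_cast
    field_simp
    linarith

/-- the constants of the main lemma -/
theorem main_lemma (h : Dat b g H α D n) {K d y L l : ℕ} (hK : (sup g n).card ≤ K) (hL1 : 1 ≤ L)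
    (hL : (H ^ 2 * K + H * |α| : ℝ) < (b : ℝ) ^ L)
    (hl : (2 * K * H ^ 2 * (8 * |α| * H + 2 * K * H ^ 2) : ℝ) < (b : ℝ) ^ l)
    (hy : l + (K ^ 2 + 1) * L ≤ 3 * y) (hd1 : 1 ≤ d) (hd : g d ≠ 0) (hyd : 5 * y < d)
    (hn : d + 5 * y ≤ n) :
    (∃ c, d + y < c ∧ c ≤ d + 5 * y ∧ g c ≠ 0) ∨
    ∃ i j, i < d ∧ j < d ∧ g i ≠ 0 ∧ g j ≠ 0 ∧ d + y < i + j ∧ i + j ≤ d + 5 * y := by
  by_contra hcon
  push Not at hcon
  obtain ⟨hc1, hc2⟩ := hcon
  have hb := h.bpos
  have hb1 := h.b1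
  -- a quiet place
  obtain ⟨m, hm1, hm2, hm3⟩ := exists_gap (g := g) (n := n) K L (d + 2 * y + l) (d + 5 * y) hK hL1
    (by omega) (by intro k hk1 hk2 i j hij _ _; omega)
  have hq := quiet h (m := m) (L := L) (by omega) hK hL hm3
  rw [sq_split d m (by omega)] at hq
  -- the two rational numbers
  obtain ⟨v, hv⟩ : ∃ v : ℤ, (b : ℝ) ^ (d + y) * (low b g d m - D) = v := by
    obtain ⟨z, hz⟩ := int_of_le (g := g) (b := b) hb.ne'
      ((range (m + 1) ×ˢ range (m + 1)).filter (fun p => p.1 + p.2 ≤ m ∧ p.1 < d ∧ p.2 < d)) (d + y) (by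
        intro p hp h1 h2
        simp only [mem_filter, mem_product, mem_range] at hp
        by_contra h3
        have := hc2 p.1 p.2 hp.2.2.1 hp.2.2.2 h1 h2 (by omega)
        omega)
    refine ⟨z - (b : ℤ) ^ (d + y) * D, ?_⟩
    push_cast
    rw [← hz]
    unfold low
    ring
  set u : ℤ := ∑ i ∈ Icc d (d + y), g i * (b : ℤ) ^ (d + y - i) with hu
  have hu0 : u ≠ 0 := h.nv d hd1 hd y (by omega)
  have huA : (b : ℝ) ^ (d + y) * ∑ i ∈ Icc d m, (g i : ℝ) / (b : ℝ) ^ i = u := by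
    have e1 : ∑ i ∈ Icc d m, (g i : ℝ) / (b : ℝ) ^ i = ∑ i ∈ Icc d (d + y), (g i : ℝ) / (b : ℝ) ^ i := by
      symm
      apply sum_subset
      · intro i hi
        rw [mem_Icc] at hi ⊢
        omega
      · intro i hi hi2
        rw [mem_Icc] at hi hi2
        have : g i = 0 := hc1 i (by omega) (by omega)
        simp [this]
    rw [e1, mul_sum, hu]
    push_cast
    refine sum_congr rfl fun i hi => ?_
    rw [mem_Icc] at hi
    have e3 : (b : ℝ) ^ (d + y) = (b : ℝ) ^ i * (b : ℝ) ^ (d + y - i) := by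
      rw [← pow_add]; congr 1; omega
    rw [e3]
    field_simp
  -- the linear form
  have hlin : |2 * α * ∑ i ∈ Icc d m, (g i : ℝ) / (b : ℝ) ^ i + (low b g d m - D)| ≤
      2 * K * H ^ 2 / (b : ℝ) ^ m := by
    have e1 : 2 * α * ∑ i ∈ Icc d m, (g i : ℝ) / (b : ℝ) ^ i + (low b g d m - D) =
        2 * ∑ i ∈ Icc d m, ((g i : ℝ) / (b : ℝ) ^ i) * (α - ps b g (m - i)) := by
      have e2 : ∑ i ∈ Icc d m, ((g i : ℝ) / (b : ℝ) ^ i) * (α - ps b g (m - i)) =
          α * ∑ i ∈ Icc d m, (g i : ℝ) / (b : ℝ) ^ i -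
          ∑ i ∈ Icc d m, ((g i : ℝ) / (b : ℝ) ^ i) * ps b g (m - i) := by
        simp only [mul_sub]
        rw [sum_sub_distrib, ← sum_mul]
        ring
      rw [e2]
      linarith
    rw [e1, abs_mul, abs_two]
    have e3 : ∑ i ∈ Icc d m, ((g i : ℝ) / (b : ℝ) ^ i) * (α - ps b g (m - i)) =
        ∑ i ∈ (Icc d m).filter (fun i => g i ≠ 0),
          ((g i : ℝ) / (b : ℝ) ^ i) * (α - ps b g (m - i)) := by
      rw [sum_filter]
      refine sum_congr rfl fun i _ => ?_
      split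
      · rfl
      · rename_i h0
        push Not at h0
        simp [h0]
    rw [e3]
    have h3 : ∀ i ∈ (Icc d m).filter (fun i => g i ≠ 0),
        |((g i : ℝ) / (b : ℝ) ^ i) * (α - ps b g (m - i))| ≤ H ^ 2 / (b : ℝ) ^ m := by
      intro i hi
      rw [mem_filter, mem_Icc] at hi
      rw [abs_mul, abs_div, abs_of_pos (pow_pos hb i)]
      have g1 : |(g i : ℝ)| ≤ H := by
        have := h.bd i (by omega)
        exact_mod_cast this
      have g2 := h.app (m - i) (by omega)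
      have e3 : (b : ℝ) ^ m = (b : ℝ) ^ i * (b : ℝ) ^ (m - i) := by
        rw [← pow_add]; congr 1; omega
      calc |(g i : ℝ)| / (b : ℝ) ^ i * |α - ps b g (m - i)|
          ≤ (H : ℝ) / (b : ℝ) ^ i * (H / (b : ℝ) ^ (m - i)) := by
            gcongr
        _ = H ^ 2 / (b : ℝ) ^ m := by
            rw [e3]
            field_simp
    have h4 : (((Icc d m).filter (fun i => g i ≠ 0)).card : ℝ) ≤ K := by
      have : ((Icc d m).filter (fun i => g i ≠ 0)).card ≤ (sup g n).card := by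
        apply card_le_card
        unfold sup
        intro i hi
        rw [mem_filter, mem_Icc] at hi
        rw [mem_filter, mem_range]
        exact ⟨by omega, hi.2⟩
      exact_mod_cast this.trans hK
    have h5 := (abs_sum_le_sum_abs _ _).trans (sum_le_sum h3)
    rw [sum_const, nsmul_eq_mul] at h5
    calc 2 * |∑ i ∈ (Icc d m).filter (fun i => g i ≠ 0),
          ((g i : ℝ) / (b : ℝ) ^ i) * (α - ps b g (m - i))| ≤ 2 * (K * (H ^ 2 / (b : ℝ) ^ m)) := by
          refine mul_le_mul_of_nonneg_left (h5.trans ?_) (by norm_num)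
          exact mul_le_mul_of_nonneg_right h4 (by positivity)
      _ = _ := by ring
  -- multiply by the denominator
  have h6 : |2 * α * u + v| ≤ 2 * K * H ^ 2 / (b : ℝ) ^ (y + l) := by
    have e1 : 2 * α * u + v = (b : ℝ) ^ (d + y) *
        (2 * α * ∑ i ∈ Icc d m, (g i : ℝ) / (b : ℝ) ^ i + (low b g d m - D)) := by
      rw [← huA, ← hv]
      ring
    rw [e1, abs_mul, abs_of_pos (pow_pos hb _)]
    calc (b : ℝ) ^ (d + y) * _ ≤ (b : ℝ) ^ (d + y) * (2 * K * H ^ 2 / (b : ℝ) ^ m) :=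
          mul_le_mul_of_nonneg_left hlin (by positivity)
      _ ≤ (b : ℝ) ^ (d + y) * (2 * K * H ^ 2 / (b : ℝ) ^ (d + 2 * y + l)) := by
          gcongr
      _ = _ := by
          have : d + 2 * y + l = (d + y) + (y + l) := by ring
          rw [this, pow_add (b : ℝ) (d + y) (y + l)]
          field_simp
  have hbu : |(u : ℝ)| ≤ 2 * H * (b : ℝ) ^ y := by
    have h7 := local_le (g := g) h.hb H y d (fun i hi => h.bd i (by rw [mem_Icc] at hi; omega))
    rw [← hu] at h7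
    have h8 : (|u| : ℤ) ≤ 2 * H * (b : ℤ) ^ y := by
      refine h7.trans ?_
      have : (0 : ℤ) ≤ H := by positivity
      nlinarith
    exact_mod_cast h8
  have h9 : (1 : ℝ) ≤ |2 * α * u + v| * |2 * α * u - v| := by
    rw [← abs_mul]
    have e1 : (2 * α * u + v) * (2 * α * u - v) = ((4 * D * u ^ 2 - v ^ 2 : ℤ) : ℝ) := by
      push_cast
      rw [← h.sq]
      ring
    rw [e1]
    have := Int.one_le_abs (norm_ne h.sq h.irr u v hu0)
    exact_mod_cast this
  have h10 : |2 * α * u - v| ≤ (8 * |α| * H + 2 * K * H ^ 2) * (b : ℝ) ^ y := by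
    have e1 : 2 * α * u - v = 2 * (2 * α * u) - (2 * α * u + v) := by ring
    rw [e1]
    refine (abs_sub _ _).trans ?_
    have t1 : |2 * (2 * α * (u : ℝ))| ≤ 8 * |α| * H * (b : ℝ) ^ y := by
      rw [abs_mul, abs_mul, abs_mul, abs_two]
      calc 2 * (2 * |α| * |(u : ℝ)|) ≤ 2 * (2 * |α| * (2 * H * (b : ℝ) ^ y)) := by gcongr
        _ = _ := by ring
    have t2 : |2 * α * (u : ℝ) + v| ≤ 2 * K * H ^ 2 * (b : ℝ) ^ y := by
      refine h6.trans ?_
      rw [div_le_iff₀ (pow_pos hb _)]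
      have t3 : (1 : ℝ) ≤ (b : ℝ) ^ y := one_le_pow₀ hb1
      have t4 : (1 : ℝ) ≤ (b : ℝ) ^ (y + l) := one_le_pow₀ hb1
      have t5 : (0 : ℝ) ≤ 2 * K * H ^ 2 := by positivity
      calc (2 * K * H ^ 2 : ℝ) = 2 * K * H ^ 2 * 1 * 1 := by ring
        _ ≤ _ := by gcongr
    linarith
  -- contradiction
  have h11 : (1 : ℝ) ≤ 2 * K * H ^ 2 / (b : ℝ) ^ (y + l) *
      ((8 * |α| * H + 2 * K * H ^ 2) * (b : ℝ) ^ y) :=
    h9.trans (mul_le_mul h6 h10 (abs_nonneg _) (by positivity))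
  have h12 : 2 * K * H ^ 2 / (b : ℝ) ^ (y + l) * ((8 * |α| * H + 2 * K * H ^ 2) * (b : ℝ) ^ y) =
      2 * K * H ^ 2 * (8 * |α| * H + 2 * K * H ^ 2) / (b : ℝ) ^ l := by
    rw [pow_add]
    field_simp
  rw [h12, le_div_iff₀ (pow_pos hb _)] at h11
  linarith

/-- a place of a nonzero digit in `(t, 5t]` -/
theorem next_place (h : Dat b g H α D n) {t : ℕ} (ht : 1 ≤ t) (hn : 5 * t ≤ n)
    (hl : (H * (2 * |α| + H) : ℝ) < (b : ℝ) ^ t) : ∃ c, t < c ∧ c ≤ 5 * t ∧ g c ≠ 0 := by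
  by_contra hcon
  push Not at hcon
  have hb := h.bpos
  have hb1 := h.b1
  have e1 : ps b g (5 * t) = ps b g t := by
    unfold ps
    symm
    apply sum_subset
    · intro i hi
      rw [mem_range] at hi ⊢
      omega
    · intro i hi hi2
      rw [mem_range] at hi hi2
      have : g i = 0 := hcon i (by omega) (by omega)
      simp [this]
  have h1 := h.app (5 * t) hn
  rw [e1] at h1
  obtain ⟨p, hp⟩ : ∃ p : ℤ, (b : ℝ) ^ t * ps b g t = p := by
    refine ⟨∑ k ∈ range (t + 1), g k * (b : ℤ) ^ (t - k), ?_⟩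
    unfold ps
    rw [mul_sum]
    push_cast
    refine sum_congr rfl fun k hk => ?_
    rw [mem_range] at hk
    have e3 : (b : ℝ) ^ t = (b : ℝ) ^ k * (b : ℝ) ^ (t - k) := by
      rw [← pow_add]; congr 1; omega
    rw [e3]
    field_simp
  have h2 : |(b : ℝ) ^ t * α - p| ≤ H / (b : ℝ) ^ (4 * t) := by
    rw [← hp, ← mul_sub, abs_mul, abs_of_pos (pow_pos hb _)]
    calc (b : ℝ) ^ t * |α - ps b g t| ≤ (b : ℝ) ^ t * (H / (b : ℝ) ^ (5 * t)) :=
          mul_le_mul_of_nonneg_left h1 (by positivity)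
      _ = _ := by
          have : 5 * t = t + 4 * t := by ring
          rw [this, pow_add]
          field_simp
  have h3 : (1 : ℝ) ≤ |(b : ℝ) ^ t * α - p| * |(b : ℝ) ^ t * α + p| := by
    rw [← abs_mul]
    have e1 : ((b : ℝ) ^ t * α - p) * ((b : ℝ) ^ t * α + p) =
        (((b : ℤ) ^ t) ^ 2 * D - p ^ 2 : ℤ) := by
      push_cast
      rw [← h.sq]
      ring
    rw [e1]
    have h4 : (((b : ℤ) ^ t) ^ 2 * D - p ^ 2 : ℤ) ≠ 0 := by
      intro h5
      have hbt : ((b : ℤ) ^ t) ≠ 0 := by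
        apply pow_ne_zero
        have := h.hb
        exact_mod_cast (by omega : b ≠ 0)
      apply norm_ne h.sq h.irr ((b : ℤ) ^ t) (2 * p) hbt
      linear_combination 4 * h5
    have := Int.one_le_abs h4
    exact_mod_cast this
  have h5 : |(b : ℝ) ^ t * α + p| ≤ (2 * |α| + H) * (b : ℝ) ^ t := by
    have e1 : (b : ℝ) ^ t * α + p = 2 * ((b : ℝ) ^ t * α) - ((b : ℝ) ^ t * α - p) := by ring
    rw [e1]
    refine (abs_sub _ _).trans ?_
    have t1 : |2 * ((b : ℝ) ^ t * α)| = 2 * |α| * (b : ℝ) ^ t := by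
      rw [abs_mul, abs_mul, abs_two, abs_of_pos (pow_pos hb _)]
      ring
    have t2 : (H : ℝ) / (b : ℝ) ^ (4 * t) ≤ H * (b : ℝ) ^ t := by
      rw [div_le_iff₀ (pow_pos hb _)]
      have t3 : (1 : ℝ) ≤ (b : ℝ) ^ t := one_le_pow₀ hb1
      have t4 : (1 : ℝ) ≤ (b : ℝ) ^ (4 * t) := one_le_pow₀ hb1
      calc (H : ℝ) = H * 1 * 1 := by ring
        _ ≤ _ := by gcongr
    rw [t1]
    linarith
  have h6 : (1 : ℝ) ≤ H / (b : ℝ) ^ (4 * t) * ((2 * |α| + H) * (b : ℝ) ^ t) :=
    h3.trans (mul_le_mul h2 h5 (abs_nonneg _) (by positivity))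
  have h7 : (H : ℝ) / (b : ℝ) ^ (4 * t) * ((2 * |α| + H) * (b : ℝ) ^ t) =
      H * (2 * |α| + H) / (b : ℝ) ^ (3 * t) := by
    have : 4 * t = 3 * t + t := by ring
    rw [this, pow_add]
    field_simp
  rw [h7, le_div_iff₀ (pow_pos hb _)] at h6
  have h8 : (b : ℝ) ^ t ≤ (b : ℝ) ^ (3 * t) := pow_le_pow_right₀ hb1 (by omega)
  linarith

end Pool.Agent.L7h5.DX
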