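import Pool.Agent.L7h5.DX.Main
import Pool.Agent.L7h5.DX.Dif

/-!
Many places of nonzero digits in `[X / (2 (K + 1)), 6 X]`.
-/

namespace Pool.Agent.L7h5.DX

open Finset

variable {b : ℕ} {g : ℕ → ℤ} {H : ℕ} {α : ℝ} {D : ℤ} {n : ℕ}

/-- the conditions on the constant `Y` -/
def Con (b H : ℕ) (α : ℝ) (Y : ℕ) : Prop :=
  1 ≤ Y ∧ (∀ K : ℕ, (H ^ 2 * K + H * |α| : ℝ) < (b : ℝ) ^ (Y * (K + 1)) ∧
    (2 * K * H ^ 2 * (8 * |α| * H + 2 * K * H ^ 2) : ℝ) < (b : ℝ) ^ (2 * Y * (K + 1))) ∧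
    ∀ t ≥ Y, (H * (2 * |α| + H) : ℝ) < (b : ℝ) ^ t

theorem exists_con (H : ℕ) (α : ℝ) : ∃ Y : ℕ, ∀ b : ℕ, 2 ≤ b → Con b H α Y := by
  set B : ℝ := 1 + H ^ 2 + H * |α| + 16 * |α| * H ^ 3 + 4 * H ^ 4 + 2 * |α| * H + H ^ 2 with hB
  refine ⟨⌈B⌉₊, fun b hb => ?_⟩
  have hY : B ≤ (⌈B⌉₊ : ℝ) := Nat.le_ceil _
  set Y := ⌈B⌉₊
  have hα := abs_nonneg α
  have hH : (0 : ℝ) ≤ H := by positivity
  have p1 : (0 : ℝ) ≤ H * |α| := by positivity
  have p2 : (0 : ℝ) ≤ 16 * |α| * H ^ 3 := by positivity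
  have p3 : (0 : ℝ) ≤ 4 * H ^ 4 := by positivity
  have p4 : (0 : ℝ) ≤ 2 * |α| * H := by positivity
  have p5 : (0 : ℝ) ≤ H ^ 2 := by positivity
  have hY1 : (1 : ℝ) ≤ Y := by linarith
  have hpow : ∀ x : ℕ, (x : ℝ) < (b : ℝ) ^ x := by
    intro x
    have h1 : x < 2 ^ x := Nat.lt_two_pow_self
    have h2 : 2 ^ x ≤ b ^ x := Nat.pow_le_pow_left hb x
    exact_mod_cast h1.trans_le h2
  refine ⟨by exact_mod_cast hY1, fun K => ⟨?_, ?_⟩, fun t ht => ?_⟩
  · have h1 := hpow (Y * (K + 1))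
    push_cast at h1
    have hK : (0 : ℝ) ≤ K := by positivity
    have h2 : (H ^ 2 * K + H * |α| : ℝ) ≤ Y * (K + 1) := by
      have a1 : (H ^ 2 * K : ℝ) ≤ Y * K := mul_le_mul_of_nonneg_right (by linarith) hK
      have a2 : (H * |α| : ℝ) ≤ Y := by linarith
      linarith
    linarith
  · have h1 := hpow (Y * (K + 1))
    push_cast at h1
    have e : (b : ℝ) ^ (2 * Y * (K + 1)) = ((b : ℝ) ^ (Y * (K + 1))) ^ 2 := by
      rw [← pow_mul]; congr 1; ring
    rw [e]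
    have hK : (0 : ℝ) ≤ K := by positivity
    have h2 : ((Y : ℝ) * (K + 1)) ^ 2 < ((b : ℝ) ^ (Y * (K + 1))) ^ 2 :=
      pow_lt_pow_left₀ h1 (by positivity) (by norm_num)
    refine lt_of_le_of_lt ?_ h2
    have a1 : (16 * |α| * H ^ 3 + 4 * H ^ 4 : ℝ) ≤ Y ^ 2 := by
      have : (Y : ℝ) ≤ Y ^ 2 := by nlinarith
      linarith
    have a2 : (K : ℝ) ≤ (K + 1) ^ 2 := by nlinarith
    have a3 : (K : ℝ) ^ 2 ≤ (K + 1) ^ 2 := by nlinarith
    calc (2 * K * H ^ 2 * (8 * |α| * H + 2 * K * H ^ 2) : ℝ)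
        = 16 * |α| * H ^ 3 * K + 4 * H ^ 4 * K ^ 2 := by ring
      _ ≤ 16 * |α| * H ^ 3 * (K + 1) ^ 2 + 4 * H ^ 4 * (K + 1) ^ 2 :=
          add_le_add (mul_le_mul_of_nonneg_left a2 p2) (mul_le_mul_of_nonneg_left a3 p3)
      _ = (16 * |α| * H ^ 3 + 4 * H ^ 4) * (K + 1) ^ 2 := by ring
      _ ≤ Y ^ 2 * (K + 1) ^ 2 := mul_le_mul_of_nonneg_right a1 (by positivity)
      _ = _ := by ring
  · have h1 := hpow t
    have h2 : (Y : ℝ) ≤ t := by exact_mod_cast ht
    have e : (H * (2 * |α| + H) : ℝ) = 2 * |α| * H + H ^ 2 := by ring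
    rw [e]
    linarith

theorem window (h : Dat b g H α D n) {K X Y q : ℕ} (hY : Con b H α Y) (hK : (sup g n).card ≤ K)
    (hq : 5 * (Y * (K + 1) ^ 3 * 25 ^ q) ≤ X / (2 * (K + 1))) (hn : 6 * X ≤ n) :
    q ≤ 2 * ((sup g n).filter fun c => X / (2 * (K + 1)) ≤ c ∧ c ≤ 6 * X).card := by
  obtain ⟨hY1, hYK, hYt⟩ := hY
  set δ := X / (2 * (K + 1)) with hδ
  have h25 : 1 ≤ 25 ^ q := Nat.one_le_pow _ _ (by norm_num)
  have hK3 : 1 ≤ (K + 1) ^ 3 := Nat.one_le_pow _ _ (by omega)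
  have hδY : 5 * Y ≤ δ := by
    refine le_trans ?_ hq
    calc 5 * Y = 5 * (Y * 1 * 1) := by ring
      _ ≤ _ := by gcongr
  have hδX : (K + 1) * δ ≤ X / 2 := by
    rw [Nat.le_div_iff_mul_le (by norm_num)]
    have := Nat.div_mul_le_self X (2 * (K + 1))
    rw [← hδ] at this
    calc (K + 1) * δ * 2 = δ * (2 * (K + 1)) := by ring
      _ ≤ X := this
  have hδ1 : δ ≤ X / 2 := le_trans (Nat.le_mul_of_pos_left _ (by omega)) hδX
  -- a free interval
  obtain ⟨s, hs, hfree⟩ : ∃ s < K + 1, ∀ c, X / 2 + s * δ < c → c ≤ X / 2 + s * δ + δ → g c = 0 := by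
    by_contra hcon
    push Not at hcon
    choose! f hf1 hf2 hf3 using hcon
    have hub : ∀ s < K + 1, s * δ + δ ≤ X / 2 := by
      intro s hs
      calc s * δ + δ = (s + 1) * δ := by ring
        _ ≤ (K + 1) * δ := Nat.mul_le_mul_right _ hs
        _ ≤ _ := hδX
    have hmap : ∀ s ∈ range (K + 1), f s ∈ sup g n := by
      intro s hs
      rw [mem_range] at hs
      unfold sup
      rw [mem_filter, mem_range]
      have := hub s hs
      have := hf2 s hs
      refine ⟨by omega, hf3 s hs⟩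
    have hinj : Set.InjOn f (range (K + 1) : Finset ℕ) := by
      intro r hr r' hr' hrr
      rw [coe_range, Set.mem_Iio] at hr hr'
      by_contra hne
      have a1 := hf1 r hr
      have a2 := hf2 r hr
      have a3 := hf1 r' hr'
      have a4 := hf2 r' hr'
      rcases Nat.lt_or_gt_of_ne hne with h | h
      · have : r * δ + δ ≤ r' * δ := by
          calc r * δ + δ = (r + 1) * δ := by ring
            _ ≤ _ := Nat.mul_le_mul_right _ h
        omega
      · have : r' * δ + δ ≤ r * δ := by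
          calc r' * δ + δ = (r' + 1) * δ := by ring
            _ ≤ _ := Nat.mul_le_mul_right _ h
        omega
    have := card_le_card_of_injOn f hmap hinj
    rw [card_range] at this
    omega
  set u := X / 2 + s * δ with hu
  have hsδ : s * δ + δ ≤ X / 2 := by
    calc s * δ + δ = (s + 1) * δ := by ring
      _ ≤ (K + 1) * δ := Nat.mul_le_mul_right _ hs
      _ ≤ _ := hδX
  have huX : u + δ ≤ X := by omega
  have huY : Y ≤ u := by omega
  -- the first place after `u`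
  have hex : ∃ c, u < c ∧ g c ≠ 0 := by
    obtain ⟨c, hc1, _, hc3⟩ := next_place h (t := u) (by omega) (by omega) (hYt u huY)
    exact ⟨c, hc1, hc3⟩
  classical
  obtain ⟨d, hd, hdmin⟩ : ∃ d, (u < d ∧ g d ≠ 0) ∧ ∀ c, u < c → g c ≠ 0 → d ≤ c := by
    refine ⟨Nat.find hex, Nat.find_spec hex, fun c h1 h2 => Nat.find_min' hex ⟨h1, h2⟩⟩
  have hd5 : d ≤ 5 * u := by
    obtain ⟨c, hc1, hc2, hc3⟩ := next_place h (t := u) (by omega) (by omega) (hYt u huY)
    exact (hdmin c hc1 hc3).trans hc2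
  have hdδ : u + δ < d := by
    by_contra hcon
    exact hd.2 (hfree d hd.1 (by omega))
  set B := (sup g n).filter fun c => δ ≤ c ∧ c ≤ 6 * X with hB
  have hmemB : ∀ c, g c ≠ 0 → δ ≤ c → c ≤ 6 * X → c ∈ B := by
    intro c h1 h2 h3
    rw [hB, mem_filter]
    unfold sup
    rw [mem_filter, mem_range]
    exact ⟨⟨by omega, h1⟩, h2, h3⟩
  set P : Finset ℤ := B.image (fun c : ℕ => (c : ℤ)) ∪ B.image (fun c : ℕ => (d : ℤ) - c) with hP
  have hPcard : P.card ≤ 2 * B.card := by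
    rw [hP]
    refine (card_union_le _ _).trans ?_
    have h1 : (B.image (fun c : ℕ => (c : ℤ))).card ≤ B.card := card_image_le
    have h2 : (B.image (fun c : ℕ => (d : ℤ) - c)).card ≤ B.card := card_image_le
    omega
  refine le_trans ?_ hPcard
  rcases Nat.eq_zero_or_pos q with hq0 | hq0
  · omega
  -- the differences
  have hdiff : ∀ t, ∃ e : ℤ, t < q → (((Y * (K + 1) ^ 3 * 25 ^ t : ℕ) : ℤ) < e ∧
      e ≤ 5 * ((Y * (K + 1) ^ 3 * 25 ^ t : ℕ) : ℤ) ∧ ∃ x ∈ P, ∃ y ∈ P, x - y = e) := by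
    intro t
    by_cases ht : t < q
    swap
    · exact ⟨0, fun h => absurd h ht⟩
    set y := Y * (K + 1) ^ 3 * 25 ^ t with hy
    have hyq : 5 * y ≤ δ := by
      refine le_trans ?_ hq
      rw [hy]
      have : 25 ^ t ≤ 25 ^ q := Nat.pow_le_pow_right (by norm_num) ht.le
      gcongr
    have hy3 : 2 * Y * (K + 1) + (K ^ 2 + 1) * (Y * (K + 1)) ≤ 3 * y := by
      have h1 : 2 * Y * (K + 1) + (K ^ 2 + 1) * (Y * (K + 1)) = Y * (K + 1) * (K ^ 2 + 3) := by ring
      have h2 : K ^ 2 + 3 ≤ 3 * (K + 1) ^ 2 := by nlinarith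
      have h3 : 1 ≤ 25 ^ t := Nat.one_le_pow _ _ (by norm_num)
      rw [h1, hy]
      calc Y * (K + 1) * (K ^ 2 + 3) ≤ Y * (K + 1) * (3 * (K + 1) ^ 2) := Nat.mul_le_mul_left _ h2
        _ = 3 * (Y * (K + 1) ^ 3 * 1) := by ring
        _ ≤ _ := by gcongr
    rcases main_lemma h (K := K) (d := d) (y := y) (L := Y * (K + 1)) (l := 2 * Y * (K + 1)) hK
      (Nat.one_le_iff_ne_zero.2 (by positivity)) (hYK K).1 (hYK K).2 hy3 (by omega) hd.2 (by omega)
      (by omega) with ⟨c, hc1, hc2, hc3⟩ | ⟨i, j, hi, hj, hgi, hgj, h1, h2⟩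
    · refine ⟨(c : ℤ) - d, fun _ => ⟨by omega, by omega, (c : ℤ), ?_, (d : ℤ), ?_, rfl⟩⟩
      · rw [hP, mem_union]
        left
        exact mem_image_of_mem _ (hmemB c hc3 (by omega) (by omega))
      · rw [hP, mem_union]
        left
        exact mem_image_of_mem _ (hmemB d hd.2 (by omega) (by omega))
    · have hi2 : i ≤ u := by
        by_contra hcon
        have := hdmin i (by omega) hgi
        omega
      have hj2 : j ≤ u := by
        by_contra hcon
        have := hdmin j (by omega) hgj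
        omega
      refine ⟨(i : ℤ) - ((d : ℤ) - j), fun _ => ⟨by omega, by omega, (i : ℤ), ?_, (d : ℤ) - j, ?_, rfl⟩⟩
      · rw [hP, mem_union]
        left
        exact mem_image_of_mem (fun c : ℕ => (c : ℤ)) (hmemB i hgi (by omega) (by omega))
      · rw [hP, mem_union]
        right
        exact mem_image_of_mem (fun c : ℕ => (d : ℤ) - c) (hmemB j hgj (by omega) (by omega))
  choose e he using hdiff
  apply dif P e q
  · have := (he 0 hq0).1
    have h0 : (0 : ℤ) ≤ ((Y * (K + 1) ^ 3 * 25 ^ 0 : ℕ) : ℤ) := by positivity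
    linarith
  · intro i hi
    have h1 := (he i (by omega)).2.1
    have h2 := (he (i + 1) hi).1
    have h3 : ((Y * (K + 1) ^ 3 * 25 ^ (i + 1) : ℕ) : ℤ) =
        25 * ((Y * (K + 1) ^ 3 * 25 ^ i : ℕ) : ℤ) := by
      push_cast
      ring
    rw [h3] at h2
    linarith
  · intro i hi
    exact (he i hi).2.2

/-- counting over disjoint windows -/
theorem core (h : Dat b g H α D n) {K X Y q S : ℕ} (hY : Con b H α Y) (hK : (sup g n).card ≤ K)
    (hq : 5 * (Y * (K + 1) ^ 3 * 25 ^ q) ≤ X / (2 * (K + 1)))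
    (hn : 6 * (X * (14 * (K + 1)) ^ S) ≤ n) : q * (S + 1) ≤ 2 * (sup g n).card := by
  set ρ := 14 * (K + 1) with hρ
  set W : ℕ → Finset ℕ := fun s => (sup g n).filter fun c =>
    X * ρ ^ s / (2 * (K + 1)) ≤ c ∧ c ≤ 6 * (X * ρ ^ s) with hW
  have hX : 1 ≤ X := by
    by_contra hcon
    have hX0 : X = 0 := by omega
    rw [hX0, Nat.zero_div] at hq
    have : 0 < 5 * (Y * (K + 1) ^ 3 * 25 ^ q) := by
      have := hY.1
      positivity
    omega
  have hρ1 : 1 ≤ ρ := by omega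
  have hstep : ∀ s, 6 * (X * ρ ^ s) < X * ρ ^ (s + 1) / (2 * (K + 1)) := by
    intro s
    have e : X * ρ ^ (s + 1) = (7 * (X * ρ ^ s)) * (2 * (K + 1)) := by
      rw [pow_succ, hρ]; ring
    rw [e, Nat.mul_div_cancel _ (by omega)]
    have : 0 < X * ρ ^ s := by positivity
    omega
  have hmono : ∀ s t, s < t → 6 * (X * ρ ^ s) < X * ρ ^ t / (2 * (K + 1)) := by
    intro s t hst
    refine (hstep s).trans_le ?_
    apply Nat.div_le_div_right
    exact Nat.mul_le_mul_left _ (Nat.pow_le_pow_right hρ1 hst)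
  have hdis : ∀ s ∈ range (S + 1), ∀ t ∈ range (S + 1), s ≠ t → Disjoint (W s) (W t) := by
    intro s _ t _ hst
    rw [disjoint_left]
    intro c hc hc2
    simp only [hW, mem_filter] at hc hc2
    rcases Nat.lt_or_gt_of_ne hst with h1 | h1
    · have := hmono s t h1
      omega
    · have := hmono t s h1
      omega
  have hcard : ∀ s ∈ range (S + 1), q ≤ 2 * (W s).card := by
    intro s hs
    rw [mem_range] at hs
    apply window h hY hK
    · refine hq.trans ?_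
      apply Nat.div_le_div_right
      calc X = X * 1 := (mul_one _).symm
        _ ≤ _ := Nat.mul_le_mul_left _ (Nat.one_le_pow _ _ hρ1)
    · refine le_trans ?_ hn
      have : ρ ^ s ≤ ρ ^ S := Nat.pow_le_pow_right hρ1 (by omega)
      gcongr
  have hunion : ((range (S + 1)).biUnion W).card = ∑ s ∈ range (S + 1), (W s).card :=
    card_biUnion hdis
  have hsub : (range (S + 1)).biUnion W ⊆ sup g n := by
    intro c hc
    rw [mem_biUnion] at hc
    obtain ⟨s, _, hc⟩ := hc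
    exact (mem_filter.1 hc).1
  have h1 := card_le_card hsub
  rw [hunion] at h1
  have h2 : ∑ s ∈ range (S + 1), q ≤ ∑ s ∈ range (S + 1), 2 * (W s).card := sum_le_sum hcard
  rw [sum_const, card_range, smul_eq_mul, ← mul_sum] at h2
  calc q * (S + 1) = (S + 1) * q := by ring
    _ ≤ _ := h2
    _ ≤ _ := Nat.mul_le_mul_left _ h1

end Pool.Agent.L7h5.DX
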